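import Mathlib
import Pool.Agent.P8H18.RR.Stm
import Pool.Agent.Cov.PNT

/-!
# Primes with given first and last digit
-/

set_option autoImplicit false

namespace Pool.Agent.P8H42.RR

open Finset Filter Topology ArithmeticFunction
open Pool.Agent.Cov.PNT (pnt_residueClass)
open Pool.Agent.P8H18.RR

theorem psi_theta :
    Tendsto (fun x : ℝ => (Chebyshev.psi x - Chebyshev.theta x) / x) atTop (𝓝 0) := by
  obtain ⟨C, hC⟩ := Chebyshev.psi_sub_theta_le_mul_sqrt
  have h2 : Tendsto (fun x : ℝ => C * (Real.sqrt x)⁻¹) atTop (𝓝 0) := by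
    have := (tendsto_inv_atTop_zero.comp Real.tendsto_sqrt_atTop).const_mul C
    simpa [Function.comp_def] using this
  refine squeeze_zero' ?_ ?_ h2
  · filter_upwards [eventually_gt_atTop 0] with x hx
    exact div_nonneg (sub_nonneg.mpr (Chebyshev.theta_le_psi x)) hx.le
  · filter_upwards [eventually_gt_atTop 0] with x hx
    rw [div_le_iff₀ hx]
    refine (hC x).trans (le_of_eq ?_)
    have hs : 0 < Real.sqrt x := Real.sqrt_pos.mpr hx
    have hx2 : Real.sqrt x * Real.sqrt x = x := Real.mul_self_sqrt hx.le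
    field_simp
    rw [sq, hx2]

/-- the von Mangoldt function over a class -/
noncomputable def cls (e N : ℕ) : ℝ := ∑ k ∈ Icc 1 N, vonMangoldt.residueClass (e : ZMod 10) k

theorem cls_tendsto {e g : ℕ} (he : e ∈ ({1, 3, 7, 9} : Finset ℕ)) (hg : 1 ≤ g) :
    Tendsto (fun L : ℕ => cls e (g * 10 ^ (2 * L)) / 10 ^ (2 * L)) atTop (𝓝 ((g : ℝ) / 4)) := by
  have hu : IsUnit ((e : ℕ) : ZMod 10) := by
    rw [ZMod.isUnit_iff_coprime]
    simp only [Finset.mem_insert, Finset.mem_singleton] at he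
    rcases he with h | h | h | h <;> subst h <;> decide
  have h0 := pnt_residueClass (q := 10) hu
  have hφ : ((Nat.totient 10 : ℕ) : ℝ)⁻¹ = 4⁻¹ := by
    have : Nat.totient 10 = 4 := by decide
    rw [this]; norm_num
  rw [hφ] at h0
  have hnat : Tendsto (fun L : ℕ => ((g * 10 ^ (2 * L) : ℕ) : ℝ)) atTop atTop := by
    apply tendsto_natCast_atTop_atTop.comp
    apply tendsto_atTop_mono (f := fun L : ℕ => L)
    · intro L
      calc L ≤ 2 * L := by omega
        _ ≤ 10 ^ (2 * L) := (Nat.lt_pow_self (by norm_num)).le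
        _ = 1 * 10 ^ (2 * L) := (one_mul _).symm
        _ ≤ g * 10 ^ (2 * L) := Nat.mul_le_mul_right _ hg
    · exact tendsto_id
  have h1 := (h0.comp hnat).const_mul (g : ℝ)
  have e2 : (g : ℝ) * 4⁻¹ = (g : ℝ) / 4 := by ring
  rw [e2] at h1
  refine h1.congr fun L => ?_
  simp only [Function.comp, Nat.floor_natCast, cls]
  have hg0 : (g : ℝ) ≠ 0 := by
    have : (0 : ℝ) < g := by exact_mod_cast hg
    exact this.ne'
  push_cast
  field_simp

/-- the primes counted -/
noncomputable def AA (e f L : ℕ) : Finset ℕ :=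
  (range (10 ^ (2 * L + 1))).filter (fun n => n.Prime ∧ dig n 0 = e ∧ dig n (2 * L) = f)

theorem mem_AA {e f L n : ℕ} (hf : f ≤ 9) : n ∈ AA e f L ↔
    n.Prime ∧ n % 10 = e ∧ f * 10 ^ (2 * L) ≤ n ∧ n < (f + 1) * 10 ^ (2 * L) := by
  have hp : 0 < 10 ^ (2 * L) := by positivity
  have key : n < 10 ^ (2 * L + 1) → (n / 10 ^ (2 * L) % 10 = f ↔ n / 10 ^ (2 * L) = f) := by
    intro h
    have : n / 10 ^ (2 * L) < 10 := by
      rw [Nat.div_lt_iff_lt_mul hp]
      rw [pow_succ] at h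
      linarith [mul_comm 10 (10 ^ (2 * L))]
    rw [Nat.mod_eq_of_lt this]
  have key2 : n / 10 ^ (2 * L) = f ↔ f * 10 ^ (2 * L) ≤ n ∧ n < (f + 1) * 10 ^ (2 * L) := by
    rw [Nat.div_eq_iff hp]
    constructor
    · rintro ⟨h1, h2⟩
      refine ⟨h1, ?_⟩
      have : (f + 1) * 10 ^ (2 * L) = f * 10 ^ (2 * L) + 10 ^ (2 * L) := by ring
      omega
    · rintro ⟨h1, h2⟩
      refine ⟨h1, ?_⟩
      have : (f + 1) * 10 ^ (2 * L) = f * 10 ^ (2 * L) + 10 ^ (2 * L) := by ring
      omega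
  simp only [AA, mem_filter, mem_range, dig, pow_zero, Nat.div_one]
  constructor
  · rintro ⟨h1, h2, h3, h4⟩
    exact ⟨h2, h3, key2.1 ((key h1).1 h4)⟩
  · rintro ⟨h2, h3, h4⟩
    have h1 : n < 10 ^ (2 * L + 1) := by
      refine h4.2.trans_le ?_
      rw [pow_succ, mul_comm]
      exact Nat.mul_le_mul_left _ (by omega)
    exact ⟨h1, h2, h3, (key h1).2 (key2.2 h4)⟩

theorem diff_bounds {e f L : ℕ} (he : e ∈ ({1, 3, 7, 9} : Finset ℕ)) (hf : f ≤ 9) (hL : 1 ≤ L) :
    0 ≤ (cls e ((f + 1) * 10 ^ (2 * L)) - cls e (f * 10 ^ (2 * L))) - ∑ n ∈ AA e f L, Real.log n ∧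
    (cls e ((f + 1) * 10 ^ (2 * L)) - cls e (f * 10 ^ (2 * L))) - ∑ n ∈ AA e f L, Real.log n ≤
      Chebyshev.psi (((f + 1) * 10 ^ (2 * L) : ℕ) : ℝ) - Chebyshev.theta (((f + 1) * 10 ^ (2 * L) : ℕ) : ℝ) := by
  classical
  obtain ⟨N, hN⟩ : ∃ N, N = (f + 1) * 10 ^ (2 * L) := ⟨_, rfl⟩
  obtain ⟨M, hM⟩ : ∃ M, M = f * 10 ^ (2 * L) := ⟨_, rfl⟩
  have hMN : M ≤ N := by rw [hM, hN]; exact Nat.mul_le_mul_right _ (by omega)
  have he10 : e < 10 ∧ e ≠ 0 := by
    simp only [Finset.mem_insert, Finset.mem_singleton] at he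
    rcases he with h | h | h | h <;> subst h <;> simp
  have hIcc : ∀ K : ℕ, Icc 1 K = Ioc 0 K := fun K => by ext x; simp [Nat.succ_le_iff]
  have h1 : cls e N - cls e M = ∑ k ∈ Ioc M N, vonMangoldt.residueClass (e : ZMod 10) k := by
    unfold cls
    rw [hIcc, hIcc, ← Finset.sum_Ioc_consecutive _ (Nat.zero_le M) hMN]
    ring
  have hcl : ∀ k : ℕ, ((k : ℕ) : ZMod 10) = (e : ZMod 10) ↔ k % 10 = e := by
    intro k
    have h := ZMod.natCast_eq_natCast_iff' k e 10
    rw [Nat.mod_eq_of_lt he10.1] at h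
    exact h
  have hN10 : N % 10 = 0 := by
    rw [hN]
    obtain ⟨m, hm⟩ : ∃ m, 2 * L = m + 1 := ⟨2 * L - 1, by omega⟩
    rw [hm, pow_succ, ← mul_assoc, Nat.mul_mod_left]
  have hM10 : M % 10 = 0 := by
    rw [hM]
    obtain ⟨m, hm⟩ : ∃ m, 2 * L = m + 1 := ⟨2 * L - 1, by omega⟩
    rw [hm, pow_succ, ← mul_assoc, Nat.mul_mod_left]
  have h2 : AA e f L = (Ioc M N).filter (fun k => k.Prime ∧ k % 10 = e) := by
    ext n
    rw [mem_AA hf, mem_filter, mem_Ioc, ← hN, ← hM]
    constructor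
    · rintro ⟨a, b, c, d⟩
      refine ⟨⟨lt_of_le_of_ne c ?_, d.le⟩, a, b⟩
      rintro rfl
      omega
    · rintro ⟨⟨c, d⟩, a, b⟩
      refine ⟨a, b, c.le, lt_of_le_of_ne d ?_⟩
      rintro rfl
      omega
  have hsub : (cls e N - cls e M) - ∑ n ∈ AA e f L, Real.log n =
      ∑ k ∈ Ioc M N, (vonMangoldt.residueClass (e : ZMod 10) k -
        if k.Prime ∧ k % 10 = e then Real.log k else 0) := by
    rw [h1, h2, Finset.sum_sub_distrib, Finset.sum_filter]
  have hres : ∀ k : ℕ, vonMangoldt.residueClass (e : ZMod 10) k = if k % 10 = e then Λ k else 0 := by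
    intro k
    by_cases hk : k % 10 = e
    · rw [if_pos hk, vonMangoldt.residueClass, Set.indicator_of_mem]
      exact (hcl k).2 hk
    · rw [if_neg hk, vonMangoldt.residueClass, Set.indicator_of_notMem]
      exact fun h' => hk ((hcl k).1 h')
  have hterm : ∀ k : ℕ, 0 ≤ (vonMangoldt.residueClass (e : ZMod 10) k -
        if k.Prime ∧ k % 10 = e then Real.log k else 0) ∧
      (vonMangoldt.residueClass (e : ZMod 10) k - if k.Prime ∧ k % 10 = e then Real.log k else 0) ≤
        (Λ k - if k.Prime then Real.log k else 0) := by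
    intro k
    rw [hres]
    by_cases hk : k % 10 = e
    · simp only [hk, if_true, and_true]
      refine ⟨?_, le_rfl⟩
      split_ifs with hp
      · rw [vonMangoldt_apply_prime hp]; simp
      · simp
    · simp only [hk, if_false, and_false]
      refine ⟨by simp, ?_⟩
      simp only [sub_zero]
      split_ifs with hp
      · rw [vonMangoldt_apply_prime hp]; simp
      · simp
  have hnn : ∀ k : ℕ, 0 ≤ (Λ k - if k.Prime then Real.log k else 0) := fun k => (hterm k).1.trans (hterm k).2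
  rw [← hN, ← hM, hsub]
  refine ⟨Finset.sum_nonneg fun k _ => (hterm k).1, ?_⟩
  calc _ ≤ ∑ k ∈ Ioc M N, (Λ k - if k.Prime then Real.log k else 0) :=
        Finset.sum_le_sum fun k _ => (hterm k).2
    _ ≤ ∑ k ∈ Icc 1 N, (Λ k - if k.Prime then Real.log k else 0) := by
        apply Finset.sum_le_sum_of_subset_of_nonneg
        · intro k hk
          rw [mem_Ioc] at hk
          rw [mem_Icc]
          omega
        · intro k _ _
          exact hnn k
    _ = Chebyshev.psi (N : ℝ) - Chebyshev.theta (N : ℝ) := by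
        rw [Finset.sum_sub_distrib, Chebyshev.psi, Chebyshev.theta, Nat.floor_natCast, hIcc,
          Finset.sum_filter]

theorem T_tendsto {e f : ℕ} (he : e ∈ ({1, 3, 7, 9} : Finset ℕ)) (hf1 : 1 ≤ f) (hf : f ≤ 9) :
    Tendsto (fun L : ℕ => (∑ n ∈ AA e f L, Real.log n) / 10 ^ (2 * L)) atTop (𝓝 (1 / 4)) := by
  have h1 := (cls_tendsto he (show 1 ≤ f + 1 by omega)).sub (cls_tendsto he hf1)
  have e1 : ((f + 1 : ℕ) : ℝ) / 4 - (f : ℝ) / 4 = 1 / 4 := by push_cast; ring
  rw [e1] at h1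
  have hnat : Tendsto (fun L : ℕ => (((f + 1) * 10 ^ (2 * L) : ℕ) : ℝ)) atTop atTop := by
    apply tendsto_natCast_atTop_atTop.comp
    apply tendsto_atTop_mono (f := fun L : ℕ => L)
    · intro L
      calc L ≤ 2 * L := by omega
        _ ≤ 10 ^ (2 * L) := (Nat.lt_pow_self (by norm_num)).le
        _ = 1 * 10 ^ (2 * L) := (one_mul _).symm
        _ ≤ (f + 1) * 10 ^ (2 * L) := Nat.mul_le_mul_right _ (by omega)
    · exact tendsto_id
  have h2 := (psi_theta.comp hnat).const_mul ((f : ℝ) + 1)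
  rw [mul_zero] at h2
  have h3 : Tendsto (fun L : ℕ => ((cls e ((f + 1) * 10 ^ (2 * L)) - cls e (f * 10 ^ (2 * L))) -
      ∑ n ∈ AA e f L, Real.log n) / 10 ^ (2 * L)) atTop (𝓝 0) := by
    refine squeeze_zero' ?_ ?_ h2
    · filter_upwards [eventually_ge_atTop 1] with L hL
      exact div_nonneg (diff_bounds he hf hL).1 (by positivity)
    · filter_upwards [eventually_ge_atTop 1] with L hL
      have h4 := (diff_bounds he hf hL).2
      simp only [Function.comp]
      have h5 : ((f : ℝ) + 1) * ((Chebyshev.psi (((f + 1) * 10 ^ (2 * L) : ℕ) : ℝ) -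
          Chebyshev.theta (((f + 1) * 10 ^ (2 * L) : ℕ) : ℝ)) / (((f + 1) * 10 ^ (2 * L) : ℕ) : ℝ)) =
          (Chebyshev.psi (((f + 1) * 10 ^ (2 * L) : ℕ) : ℝ) -
          Chebyshev.theta (((f + 1) * 10 ^ (2 * L) : ℕ) : ℝ)) / 10 ^ (2 * L) := by
        have hf0 : ((f : ℝ) + 1) ≠ 0 := by positivity
        rw [show (((f + 1) * 10 ^ (2 * L) : ℕ) : ℝ) = ((f : ℝ) + 1) * 10 ^ (2 * L) by push_cast; ring]
        field_simp
      rw [h5]
      exact div_le_div_of_nonneg_right h4 (by positivity)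
  have h6 := h1.sub h3
  rw [sub_zero] at h6
  refine h6.congr fun L => ?_
  ring

/-- Primes with given first and last digit. -/
theorem pntm : S_PNTM := by
  intro e f he hf1 hf
  have hT := (T_tendsto he hf1 hf).const_mul (4 : ℝ)
  rw [show (4 : ℝ) * (1 / 4) = 1 by norm_num] at hT
  have hl : 0 < Real.log 10 := Real.log_pos (by norm_num)
  have hq : Tendsto (fun L : ℕ => (2 * L : ℝ) / (2 * L + 1)) atTop (𝓝 1) := by
    have h1 : Tendsto (fun L : ℕ => (1 : ℝ) - 1 / (2 * L + 1)) atTop (𝓝 (1 - 0)) := by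
      apply Tendsto.sub tendsto_const_nhds
      have h2 : Tendsto (fun L : ℕ => (2 * (L : ℝ) + 1)) atTop atTop := by
        apply tendsto_atTop_add_const_right
        exact Tendsto.const_mul_atTop (by norm_num) tendsto_natCast_atTop_atTop
      have h3 := h2.inv_tendsto_atTop
      refine h3.congr fun L => ?_
      simp [Pi.inv_apply]
    rw [sub_zero] at h1
    refine h1.congr fun L => ?_
    have : (2 * (L : ℝ) + 1) ≠ 0 := by positivity
    field_simp
    ring
  have hlow := hT.mul hq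
  rw [one_mul] at hlow
  refine tendsto_of_tendsto_of_tendsto_of_le_of_le' hlow hT ?_ ?_
  · filter_upwards [eventually_ge_atTop 1] with L hL
    have hL0 : (0 : ℝ) < L := by exact_mod_cast hL
    have hup : ∑ n ∈ AA e f L, Real.log n ≤ (AA e f L).card * ((2 * L + 1) * Real.log 10) := by
      rw [← nsmul_eq_mul]
      apply Finset.sum_le_card_nsmul
      intro n hn
      have hn' := (mem_AA hf).1 hn
      have h1 : (n : ℝ) ≤ 10 ^ (2 * L + 1) := by
        have : n ≤ 10 ^ (2 * L + 1) := by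
          refine hn'.2.2.2.le.trans ?_
          rw [pow_succ, mul_comm]
          exact Nat.mul_le_mul_left _ (by omega)
        exact_mod_cast this
      have h2 : (0 : ℝ) < n := by exact_mod_cast hn'.1.pos
      calc Real.log n ≤ Real.log (10 ^ (2 * L + 1)) := Real.log_le_log h2 h1
        _ = (2 * L + 1) * Real.log 10 := by rw [Real.log_pow]; push_cast; ring
    have hP : (0 : ℝ) < 10 ^ (2 * L) := by positivity
    change 4 * ((∑ n ∈ AA e f L, Real.log n) / 10 ^ (2 * L)) * ((2 * L : ℝ) / (2 * L + 1)) ≤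
      ((AA e f L).card : ℝ) / (10 ^ (2 * L) / (8 * L * Real.log 10))
    have e1 : ((AA e f L).card : ℝ) / (10 ^ (2 * L) / (8 * L * Real.log 10)) =
        4 * (((AA e f L).card * ((2 * L + 1) * Real.log 10)) / 10 ^ (2 * L)) * ((2 * L : ℝ) / (2 * L + 1)) := by
      have : (2 * (L : ℝ) + 1) ≠ 0 := by positivity
      field_simp
      ring
    rw [e1]
    apply mul_le_mul_of_nonneg_right _ (by positivity)
    apply mul_le_mul_of_nonneg_left _ (by norm_num)
    exact div_le_div_of_nonneg_right hup hP.le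
  · filter_upwards [eventually_ge_atTop 1] with L hL
    have hL0 : (0 : ℝ) < L := by exact_mod_cast hL
    have hlo : ((AA e f L).card : ℝ) * (2 * L * Real.log 10) ≤ ∑ n ∈ AA e f L, Real.log n := by
      rw [← nsmul_eq_mul]
      apply Finset.card_nsmul_le_sum
      intro n hn
      have hn' := (mem_AA hf).1 hn
      have h1 : (10 : ℝ) ^ (2 * L) ≤ n := by
        have : 10 ^ (2 * L) ≤ n := by
          refine le_trans ?_ hn'.2.2.1
          calc 10 ^ (2 * L) = 1 * 10 ^ (2 * L) := (one_mul _).symm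
            _ ≤ f * 10 ^ (2 * L) := Nat.mul_le_mul_right _ hf1
        exact_mod_cast this
      calc 2 * L * Real.log 10 = Real.log (10 ^ (2 * L)) := by rw [Real.log_pow]; push_cast; ring
        _ ≤ Real.log n := Real.log_le_log (by positivity) h1
    have hP : (0 : ℝ) < 10 ^ (2 * L) := by positivity
    change ((AA e f L).card : ℝ) / (10 ^ (2 * L) / (8 * L * Real.log 10)) ≤
      4 * ((∑ n ∈ AA e f L, Real.log n) / 10 ^ (2 * L))
    have e1 : ((AA e f L).card : ℝ) / (10 ^ (2 * L) / (8 * L * Real.log 10)) =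
        4 * (((AA e f L).card * (2 * L * Real.log 10)) / 10 ^ (2 * L)) := by
      field_simp
      ring
    rw [e1]
    apply mul_le_mul_of_nonneg_left _ (by norm_num)
    exact div_le_div_of_nonneg_right hlo hP.le

end Pool.Agent.P8H42.RR
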